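import Mathlib

/-!
# Random sequences in `F₂[X₁, …, Xₙ] / (X₁², …, Xₙ²)`: leading sets
-/

set_option autoImplicit false

namespace Pool.Agent.Q248.SR

open Finset

/-- An element of `B^(n) = F₂[X₁, …, Xₙ] / (X₁², …, Xₙ²)`, given by the coefficients of the
squarefree monomials. -/
abbrev B (n : ℕ) : Type := Finset (Fin n) → ZMod 2

/-- The product of `B^(n)`. -/
def mul {n : ℕ} (f g : B n) : B n := fun S => ∑ T ∈ S.powerset, f T * g (S \ T)

/-- `f` is homogeneous of degree `k`. -/
def IsHomog {n : ℕ} (k : ℕ) (f : B n) : Prop := ∀ S, f S ≠ 0 → S.card = k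

/-- The homogeneous elements of degree `e`. -/
def H (n e : ℕ) : Submodule (ZMod 2) (B n) where
  carrier := {f | IsHomog e f}
  add_mem' := by
    intro f g hf hg S hS
    by_cases h : f S = 0
    · apply hg
      intro h'
      apply hS
      simp [h, h']
    · exact hf S h
  zero_mem' := by
    intro S hS
    exact absurd rfl hS
  smul_mem' := by
    intro c f hf S hS
    apply hf
    intro h
    apply hS
    simp [h]

theorem mem_H {n e : ℕ} {f : B n} : f ∈ H n e ↔ IsHomog e f := Iff.rfl

/-- The product as a bilinear map. -/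
def mulL (n : ℕ) : B n →ₗ[ZMod 2] B n →ₗ[ZMod 2] B n :=
  LinearMap.mk₂ (ZMod 2) mul
    (by intro f g h; funext S; simp [mul, add_mul, sum_add_distrib])
    (by intro c f g; funext S; simp [mul, mul_sum, mul_assoc])
    (by intro f g h; funext S; simp [mul, mul_add, sum_add_distrib])
    (by intro c f g; funext S; simp [mul, mul_sum, mul_left_comm])

theorem mulL_apply {n : ℕ} (f g : B n) : mulL n f g = mul f g := rfl

/-- `λ ↦ ∑ μ_i λ_i` -/
def Phi {n m : ℕ} (d : ℕ) (μ : Fin m → B n) : (Fin m → H n d) →ₗ[ZMod 2] B n :=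
  ∑ i, (mulL n (μ i)).comp ((H n d).subtype.comp (LinearMap.proj i))

theorem Phi_apply {n m : ℕ} (d : ℕ) (μ : Fin m → B n) (l : Fin m → H n d) :
    Phi d μ l = ∑ i, mul (μ i) (l i : B n) := by
  simp [Phi, mulL_apply, LinearMap.sum_apply]

/-- the weight of a set -/
def w {n : ℕ} (S : Finset (Fin n)) : ℕ := ∑ i ∈ S, 2 ^ (i : ℕ)

theorem w_injective {n : ℕ} : Function.Injective (w (n := n)) := by
  intro S T h
  have h1 : ∀ S : Finset (Fin n), w S = ∑ i ∈ S.map Fin.valEmbedding, 2 ^ i := by
    intro S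
    rw [sum_map]
    rfl
  rw [h1, h1] at h
  exact map_injective _ (Finset.geomSum_injective le_rfl h)

theorem w_union {n : ℕ} {S T : Finset (Fin n)} (h : Disjoint S T) : w (S ∪ T) = w S + w T :=
  sum_union h

/-- `F` is the leading set of `u` -/
def Lead {n : ℕ} (u : B n) (F : Finset (Fin n)) : Prop := u F ≠ 0 ∧ ∀ S, u S ≠ 0 → w S ≤ w F

theorem exists_lead {n : ℕ} {u : B n} (hu : u ≠ 0) : ∃ F, Lead u F := by
  obtain ⟨S, hS⟩ := Function.ne_iff.mp hu
  obtain ⟨F, hF, hmax⟩ := exists_max_image (univ.filter fun S => u S ≠ 0) w ⟨S, by simpa using hS⟩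
  refine ⟨F, by simpa using hF, fun S hS => hmax S (by simpa using hS)⟩

open Classical in
/-- the leading sets of a subspace -/
noncomputable def LM {n : ℕ} (U : Submodule (ZMod 2) (B n)) : Finset (Finset (Fin n)) :=
  univ.filter fun F => ∃ u ∈ U, Lead u F

theorem mem_LM {n : ℕ} {U : Submodule (ZMod 2) (B n)} {F : Finset (Fin n)} :
    F ∈ LM U ↔ ∃ u ∈ U, Lead u F := by
  simp [LM]

theorem finrank_le {n : ℕ} (U : Submodule (ZMod 2) (B n)) :
    Module.finrank (ZMod 2) U ≤ (LM U).card := by
  let f : U →ₗ[ZMod 2] (LM U → ZMod 2) :=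
    LinearMap.pi fun F => (LinearMap.proj F.1).comp U.subtype
  have hf : Function.Injective f := by
    rw [← LinearMap.ker_eq_bot, LinearMap.ker_eq_bot']
    intro u hu
    by_contra hne
    have hne' : (u : B n) ≠ 0 := by
      intro h
      exact hne (Subtype.ext h)
    obtain ⟨F, hF⟩ := exists_lead hne'
    have h1 := congrFun hu ⟨F, mem_LM.mpr ⟨u, u.2, hF⟩⟩
    exact hF.1 h1
  have h2 := LinearMap.finrank_le_finrank_of_injective hf
  rwa [Module.finrank_pi, Fintype.card_coe] at h2

theorem card_LM_le {n : ℕ} (U : Submodule (ZMod 2) (B n)) :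
    (LM U).card ≤ Module.finrank (ZMod 2) U := by
  have hch : ∀ F : LM U, ∃ u : U, Lead (u : B n) F.1 := by
    intro F
    obtain ⟨u, hu, hF⟩ := mem_LM.mp F.2
    exact ⟨⟨u, hu⟩, hF⟩
  choose u hu using hch
  have hli : LinearIndependent (ZMod 2) u := by
    rw [Fintype.linearIndependent_iff]
    intro c hc
    by_contra hne
    push Not at hne
    obtain ⟨F₀, hF₀⟩ := hne
    obtain ⟨F, hF, hmax⟩ := exists_max_image (univ.filter fun F : LM U => c F ≠ 0)
      (fun F => w F.1) ⟨F₀, by simpa using hF₀⟩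
    have hF' : c F ≠ 0 := by simpa using hF
    have h1 : (∑ G, c G • u G : U) = 0 := hc
    have h2 := congrArg (fun v : U => (v : B n) F.1) h1
    simp only [Submodule.coe_sum, Submodule.coe_smul, Finset.sum_apply, Pi.smul_apply,
      smul_eq_mul, Submodule.coe_zero, Pi.zero_apply] at h2
    rw [sum_eq_single F] at h2
    · rcases mul_eq_zero.mp h2 with h3 | h3
      · exact hF' h3
      · exact (hu F).1 h3
    · intro G _ hG
      by_cases hcG : c G = 0
      · rw [hcG, zero_mul]
      · have h4 : w G.1 ≤ w F.1 := hmax G (by simpa using hcG)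
        have h5 : w G.1 ≠ w F.1 := fun h => hG (Subtype.ext (w_injective h))
        have h6 : (u G : B n) F.1 = 0 := by
          by_contra h7
          have := (hu G).2 F.1 h7
          omega
        rw [h6, mul_zero]
    · intro h
      exact absurd (mem_univ _) h
  have := hli.fintype_card_le_finrank
  rwa [Fintype.card_coe] at this

end Pool.Agent.Q248.SR
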