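import Pool.Agent.Q248.SR.Basic

/-!
# Random sequences in `F₂[X₁, …, Xₙ] / (X₁², …, Xₙ²)`: counting relations
-/

set_option autoImplicit false

namespace Pool.Agent.Q248.SR

open Finset

theorem mul_ind {n : ℕ} (u : B n) (G S : Finset (Fin n)) :
    mul u (Pi.single G 1) S = if G ⊆ S then u (S \ G) else 0 := by
  unfold mul
  split_ifs with h
  · rw [sum_eq_single (S \ G)]
    · rw [Finset.sdiff_sdiff_eq_self h, Pi.single_eq_same, mul_one]
    · intro T hT hne
      rw [mem_powerset] at hT
      have : S \ T ≠ G := by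
        rintro rfl
        exact hne (Finset.sdiff_sdiff_eq_self hT).symm
      rw [Pi.single_eq_of_ne this, mul_zero]
    · intro h'
      exact absurd (mem_powerset.mpr sdiff_subset) h'
  · apply sum_eq_zero
    intro T hT
    have : S \ T ≠ G := by
      rintro rfl
      exact h sdiff_subset
    rw [Pi.single_eq_of_ne this, mul_zero]

theorem lead_mul {n : ℕ} {u : B n} {F G : Finset (Fin n)} (hu : Lead u F) (h : Disjoint F G) :
    Lead (mul u (Pi.single G 1)) (F ∪ G) := by
  constructor
  · rw [mul_ind, if_pos subset_union_right, union_sdiff_cancel_right h]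
    exact hu.1
  · intro S hS
    rw [mul_ind] at hS
    split_ifs at hS with hG
    · have h1 := hu.2 _ hS
      have h2 : w S = w (S \ G) + w G := by
        rw [← w_union sdiff_disjoint, sdiff_union_of_subset hG]
      rw [w_union h, h2]
      omega
    · exact absurd rfl hS

theorem mul_mem_range {n m d : ℕ} {μ : Fin m → B n} {u g : B n}
    (hu : u ∈ Submodule.span (ZMod 2) (Set.range μ)) (hg : g ∈ H n d) :
    mul u g ∈ LinearMap.range (Phi d μ) := by
  have h1 : Submodule.span (ZMod 2) (Set.range μ) ≤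
      (LinearMap.range (Phi d μ)).comap ((mulL n).flip g) := by
    rw [Submodule.span_le]
    rintro _ ⟨i, rfl⟩
    show mul (μ i) g ∈ LinearMap.range (Phi d μ)
    refine ⟨Pi.single i ⟨g, hg⟩, ?_⟩
    rw [Phi_apply, sum_eq_single i]
    · simp
    · intro j _ hj
      rw [Pi.single_eq_of_ne hj]
      exact (mulL n (μ j)).map_zero
    · intro h
      exact absurd (mem_univ _) h
  exact h1 hu

theorem shadow {n m d e : ℕ} (μ : Fin m → B n) (hμ : ∀ i, μ i ∈ H n e) :
    (LM (Submodule.span (ZMod 2) (Set.range μ))).card * (n - e).choose d ≤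
      (e + d).choose d * (LM (LinearMap.range (Phi d μ))).card := by
  set U := Submodule.span (ZMod 2) (Set.range μ) with hU
  have hUe : U ≤ H n e := Submodule.span_le.mpr (by rintro _ ⟨i, rfl⟩; exact hμ i)
  have hcard : ∀ F ∈ LM U, F.card = e := by
    intro F hF
    obtain ⟨u, hu, h⟩ := mem_LM.mp hF
    exact hUe hu F h.1
  set s : Finset (Σ _ : Finset (Fin n), Finset (Fin n)) :=
    (LM U).sigma fun F => (univ \ F).powersetCard d with hs
  have hmem : ∀ x : (Σ _ : Finset (Fin n), Finset (Fin n)), x ∈ s ↔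
      x.1 ∈ LM U ∧ Disjoint x.1 x.2 ∧ x.2.card = d := by
    intro x
    rw [hs, mem_sigma, mem_powersetCard]
    refine and_congr_right fun _ => and_congr_left fun _ => ?_
    rw [subset_sdiff]
    constructor
    · intro h
      exact h.2.symm
    · intro h
      exact ⟨subset_univ _, h.symm⟩
  have hsc : s.card = (LM U).card * (n - e).choose d := by
    rw [hs, card_sigma, sum_const_nat (m := (n - e).choose d)]
    intro F hF
    rw [card_powersetCard, card_sdiff_of_subset (subset_univ _), card_univ, Fintype.card_fin,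
      hcard F hF]
  have himg : s.image (fun x => x.1 ∪ x.2) ⊆ LM (LinearMap.range (Phi d μ)) := by
    intro a ha
    obtain ⟨x, hx, rfl⟩ := mem_image.mp ha
    obtain ⟨h1, h2, h3⟩ := (hmem x).mp hx
    obtain ⟨u, hu, hl⟩ := mem_LM.mp h1
    refine mem_LM.mpr ⟨mul u (Pi.single x.2 1), mul_mem_range hu ?_, lead_mul hl h2⟩
    intro S hS
    by_cases h : S = x.2
    · rw [h, h3]
    · rw [Pi.single_eq_of_ne h] at hS
      exact absurd rfl hS
  have hfib : ∀ a ∈ s.image (fun x => x.1 ∪ x.2),
      (s.filter (fun x => x.1 ∪ x.2 = a)).card ≤ (e + d).choose d := by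
    intro a ha
    obtain ⟨y, hy, rfl⟩ := mem_image.mp ha
    obtain ⟨h1, h2, h3⟩ := (hmem y).mp hy
    have hac : (y.1 ∪ y.2).card = e + d := by
      rw [card_union_of_disjoint h2, hcard _ h1, h3]
    rw [← hac, ← h3, ← card_powersetCard]
    refine card_le_card_of_injOn (fun x => x.2) ?_ ?_
    · intro x hx
      rw [mem_coe, mem_filter] at hx
      obtain ⟨hx1, hx2⟩ := hx
      obtain ⟨_, _, hx5⟩ := (hmem x).mp hx1
      rw [mem_coe, mem_powersetCard]
      refine ⟨?_, by rw [hx5, h3]⟩
      rw [← hx2]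
      exact subset_union_right
    · intro x hx z hz hxz
      rw [mem_coe, mem_filter] at hx hz
      obtain ⟨_, hx4, _⟩ := (hmem x).mp hx.1
      obtain ⟨_, hz4, _⟩ := (hmem z).mp hz.1
      have h5 : x.1 = z.1 := by
        have e1 : x.1 = (x.1 ∪ x.2) \ x.2 := (union_sdiff_cancel_right hx4).symm
        have e2 : z.1 = (z.1 ∪ z.2) \ z.2 := (union_sdiff_cancel_right hz4).symm
        rw [e1, e2, hx.2, hz.2]
        have : x.2 = z.2 := hxz
        rw [this]
      obtain ⟨x1, x2⟩ := x
      obtain ⟨z1, z2⟩ := z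
      simp only at h5 hxz
      rw [h5, hxz]
  have h6 := card_le_mul_card_image s ((e + d).choose d) hfib
  rw [hsc] at h6
  exact h6.trans (Nat.mul_le_mul_left _ (card_le_card himg))

theorem rank_bound {n m d e : ℕ} (μ : Fin m → B n) (hμ : ∀ i, μ i ∈ H n e) :
    Module.finrank (ZMod 2) (Submodule.span (ZMod 2) (Set.range μ)) * (n - e).choose d ≤
      (e + d).choose d * Module.finrank (ZMod 2) (LinearMap.range (Phi d μ)) :=
  (Nat.mul_le_mul_right _ (finrank_le _)).trans
    ((shadow μ hμ).trans (Nat.mul_le_mul_left _ (card_LM_le _)))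

theorem card_ker {n m d : ℕ} (μ : Fin m → B n) :
    Nat.card (LinearMap.ker (Phi d μ)) *
        2 ^ Module.finrank (ZMod 2) (LinearMap.range (Phi d μ)) =
      Nat.card (Fin m → H n d) := by
  rw [Module.natCard_eq_pow_finrank (K := ZMod 2),
    Module.natCard_eq_pow_finrank (K := ZMod 2) (V := Fin m → H n d), Nat.card_zmod, ← pow_add,
    add_comm, LinearMap.finrank_range_add_finrank_ker]

theorem card_H (n e : ℕ) : Nat.card (H n e) ≤ 2 ^ n.choose e := by
  let f : H n e → ({S // S ∈ powersetCard e (univ : Finset (Fin n))} → ZMod 2) :=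
    fun u S => (u : B n) S.1
  have hf : Function.Injective f := by
    intro u v huv
    apply Subtype.ext
    funext S
    by_cases hS : S.card = e
    · exact congrFun huv ⟨S, mem_powersetCard.mpr ⟨subset_univ _, hS⟩⟩
    · have h1 : (u : B n) S = 0 := by
        by_contra h
        exact hS (u.2 S h)
      have h2 : (v : B n) S = 0 := by
        by_contra h
        exact hS (v.2 S h)
      rw [h1, h2]
  refine (Nat.card_le_card_of_injective f hf).trans (le_of_eq ?_)
  rw [Nat.card_fun, Nat.card_zmod, Nat.card_eq_fintype_card, Fintype.card_coe, card_powersetCard,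
    card_univ, Fintype.card_fin]

/-- the dimension of the span of the `μ i` -/
noncomputable def rk {n m e : ℕ} (μ : Fin m → H n e) : ℕ :=
  Module.finrank (ZMod 2) (Submodule.span (ZMod 2) (Set.range fun i => (μ i : B n)))

theorem card_mu (n m e k : ℕ) :
    Nat.card {μ : Fin m → H n e // rk μ = k} ≤ 2 ^ (k * (m + n.choose e)) := by
  have hch : ∀ μ : {μ : Fin m → H n e // rk μ = k},
      ∃ p : (Fin k → H n e) × (Fin m → Fin k → ZMod 2),
        ∀ i, μ.1 i = ∑ a, p.2 i a • p.1 a := by
    rintro ⟨μ, hμ⟩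
    set U := Submodule.span (ZMod 2) (Set.range fun i => (μ i : B n)) with hU
    have hUe : U ≤ H n e := Submodule.span_le.mpr (by rintro _ ⟨i, rfl⟩; exact (μ i).2)
    have hk : Module.finrank (ZMod 2) U = k := hμ
    let b := Module.finBasisOfFinrankEq (ZMod 2) U hk
    have hmem : ∀ i, (μ i : B n) ∈ U := fun i => Submodule.subset_span ⟨i, rfl⟩
    refine ⟨(fun a => ⟨b a, hUe (b a).2⟩, fun i a => b.repr ⟨μ i, hmem i⟩ a), fun i => ?_⟩
    apply Subtype.ext
    have h1 := congrArg (fun v : U => (v : B n)) (b.sum_repr ⟨μ i, hmem i⟩)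
    simp only [Submodule.coe_sum, Submodule.coe_smul] at h1 ⊢
    exact h1.symm
  choose p hp using hch
  have hinj : Function.Injective p := by
    intro μ ν h
    apply Subtype.ext
    funext i
    rw [hp μ i, hp ν i, h]
  refine (Nat.card_le_card_of_injective p hinj).trans ?_
  rw [Nat.card_prod, Nat.card_fun, Nat.card_fun, Nat.card_fun, Nat.card_zmod]
  simp only [Nat.card_eq_fintype_card, Fintype.card_fin]
  calc Nat.card (H n e) ^ k * (2 ^ k) ^ m ≤ (2 ^ n.choose e) ^ k * (2 ^ k) ^ m :=
        Nat.mul_le_mul_right _ (Nat.pow_le_pow_left (card_H n e) k)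
    _ = 2 ^ (k * (m + n.choose e)) := by
        rw [← pow_mul, ← pow_mul, ← pow_add]
        congr 1
        ring

end Pool.Agent.Q248.SR
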