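import Pool.Agent.Q248.SR.Rel

/-!
# Random sequences in `F₂[X₁, …, Xₙ] / (X₁², …, Xₙ²)`: the range of the parameters
-/

set_option autoImplicit false

namespace Pool.Agent.Q248.SR

open Finset

theorem four_mul_le (d : ℕ) : 4 * d ≤ 3 * 8 ^ d * d.factorial := by
  have h1 : d < 8 ^ d := Nat.lt_pow_self (by norm_num)
  have h2 : d ≤ d.factorial * d := Nat.le_mul_of_pos_left _ (Nat.factorial_pos d)
  rcases Nat.eq_zero_or_pos d with rfl | hd
  · simp
  have h3 : 8 ≤ 8 ^ d := Nat.le_self_pow (by omega) 8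
  have h4 : d ≤ d.factorial := Nat.self_le_factorial d
  nlinarith [Nat.mul_le_mul h3 h4]

theorem range_ok {n m d e : ℕ} (hd : 1 ≤ d) (he : e < d) (hn : 3 * 8 ^ d * d.factorial ≤ n)
    (hm : m * (3 * 8 ^ d * d.factorial) ≤ n ^ d) :
    (m + n.choose e + n ^ d / (3 * 8 ^ d * d.factorial)) * (e + d).choose d ≤
      (n - e).choose d := by
  set K := 3 * 8 ^ d * d.factorial with hK
  have hK0 : 0 < K := by positivity
  have hn1 : 1 ≤ n := le_trans hK0 hn
  set t := n ^ d / K with ht
  have h4 : 4 * d ≤ n := (four_mul_le d).trans hn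
  have h1 : n.choose e * K ≤ n ^ d := by
    calc n.choose e * K ≤ n ^ e * n := Nat.mul_le_mul (Nat.choose_le_pow n e) hn
      _ = n ^ (e + 1) := (pow_succ n e).symm
      _ ≤ n ^ d := Nat.pow_le_pow_right hn1 he
  have h2 : t * K ≤ n ^ d := Nat.div_mul_le_self _ _
  have h3 : (m + n.choose e + t) * (8 ^ d * d.factorial) ≤ n ^ d := by
    have : (m + n.choose e + t) * K ≤ 3 * n ^ d := by
      rw [add_mul, add_mul]
      omega
    have h5 : (m + n.choose e + t) * K = 3 * ((m + n.choose e + t) * (8 ^ d * d.factorial)) := by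
      rw [hK]
      ring
    omega
  have h6 : n ^ d ≤ 2 ^ d * (d.factorial * (n - e).choose d) := by
    rw [← Nat.descFactorial_eq_factorial_mul_choose]
    calc n ^ d ≤ (2 * (n - e + 1 - d)) ^ d := Nat.pow_le_pow_left (by omega) d
      _ = 2 ^ d * (n - e + 1 - d) ^ d := mul_pow _ _ _
      _ ≤ 2 ^ d * (n - e).descFactorial d :=
        Nat.mul_le_mul_left _ (Nat.pow_sub_le_descFactorial _ _)
  have h7 : (e + d).choose d ≤ 4 ^ d := by
    calc (e + d).choose d ≤ 2 ^ (e + d) := Nat.choose_le_two_pow _ _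
      _ ≤ 2 ^ (2 * d) := Nat.pow_le_pow_right (by norm_num) (by omega)
      _ = 4 ^ d := by rw [pow_mul]; norm_num
  have h8 : 0 < 2 ^ d * d.factorial := by positivity
  refine le_of_mul_le_mul_left (a := 2 ^ d * d.factorial) ?_ h8
  calc 2 ^ d * d.factorial * ((m + n.choose e + t) * (e + d).choose d)
      ≤ 2 ^ d * d.factorial * ((m + n.choose e + t) * 4 ^ d) :=
        Nat.mul_le_mul_left _ (Nat.mul_le_mul_left _ h7)
    _ = (m + n.choose e + t) * (8 ^ d * d.factorial) := by
        rw [show (8 : ℕ) = 2 * 4 by norm_num, mul_pow]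
        ring
    _ ≤ n ^ d := h3
    _ ≤ 2 ^ d * (d.factorial * (n - e).choose d) := h6
    _ = 2 ^ d * d.factorial * (n - e).choose d := by ring

theorem one_le_t {n d : ℕ} (hd : 1 ≤ d) (hn : 3 * 8 ^ d * d.factorial ≤ n) :
    1 ≤ n ^ d / (3 * 8 ^ d * d.factorial) := by
  have hK0 : 0 < 3 * 8 ^ d * d.factorial := by positivity
  rw [Nat.le_div_iff_mul_le hK0, one_mul]
  exact hn.trans (Nat.le_self_pow (by omega) n)

/-- the component of degree `k` -/
def comp {n : ℕ} (k : ℕ) (f : B n) : B n := fun S => if S.card = k then f S else 0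

theorem comp_homog {n : ℕ} (k : ℕ) (f : B n) : IsHomog k (comp k f) := by
  intro S hS
  by_contra h
  exact hS (if_neg h)

theorem comp_apply {n : ℕ} (k : ℕ) (f : B n) (S : Finset (Fin n)) :
    comp k f S = if S.card = k then f S else 0 := rfl

theorem comp_mul {n d e : ℕ} (b g : B n) (hg : IsHomog d g) :
    comp (e + d) (mul b g) = mul (comp e b) g := by
  funext S
  rw [comp_apply]
  split_ifs with h
  · unfold mul
    refine sum_congr rfl fun T hT => ?_
    rw [mem_powerset] at hT
    by_cases h0 : g (S \ T) = 0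
    · rw [h0, mul_zero, mul_zero]
    · have h1 := hg _ h0
      rw [card_sdiff_of_subset hT] at h1
      have h2 := card_le_card hT
      rw [comp_apply, if_pos (by omega)]
  · unfold mul
    symm
    refine sum_eq_zero fun T hT => ?_
    rw [mem_powerset] at hT
    by_cases h0 : g (S \ T) = 0
    · rw [h0, mul_zero]
    · have h1 := hg _ h0
      rw [card_sdiff_of_subset hT] at h1
      have h2 := card_le_card hT
      rw [comp_apply, if_neg (by omega), zero_mul]

theorem comp_sum {n m : ℕ} (k : ℕ) (J : Finset (Fin m)) (f : Fin m → B n) :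
    comp k (∑ j ∈ J, f j) = ∑ j ∈ J, comp k (f j) := by
  funext S
  rw [comp_apply, Finset.sum_apply, Finset.sum_apply]
  simp only [comp_apply]
  split_ifs with h
  · rfl
  · rw [sum_const_zero]

theorem comp_of_homog {n k : ℕ} {f : B n} (hf : IsHomog k f) : comp k f = f := by
  funext S
  rw [comp_apply]
  split_ifs with h
  · rfl
  · by_contra h'
    exact h (hf S (fun h0 => h' h0.symm))

end Pool.Agent.Q248.SR
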