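import Pool.Agent.Q248.SR.Count

/-!
# Random sequences in `F₂[X₁, …, Xₙ] / (X₁², …, Xₙ²)`: most tuples have no relations
-/

set_option autoImplicit false

namespace Pool.Agent.Q248.SR

open Finset

/-- there is a relation `∑ μ_i λ_i = 0` with `μ_i` homogeneous of degree `e`, not all zero -/
def HasRel {n m : ℕ} (e : ℕ) (lam : Fin m → B n) : Prop :=
  ∃ μ : Fin m → B n, (∀ i, IsHomog e (μ i)) ∧ μ ≠ 0 ∧ ∑ i, mul (μ i) (lam i) = 0

theorem sum_pow_le (m t : ℕ) (ht : 1 ≤ t) :
    ∑ k ∈ Icc 1 m, ((1 / 2 : ℝ) ^ t) ^ k ≤ 2 * (1 / 2) ^ t := by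
  have h0 : Icc 1 m = Ico 1 (m + 1) := by
    ext k
    simp only [mem_Icc, mem_Ico]
    omega
  have h1 : ∑ k ∈ Icc 1 m, ((1 / 2 : ℝ) ^ t) ^ k =
      ∑ k ∈ range m, (1 / 2) ^ t * ((1 / 2 : ℝ) ^ t) ^ k := by
    rw [h0, sum_Ico_eq_sum_range, Nat.add_sub_cancel]
    refine sum_congr rfl fun k _ => ?_
    rw [pow_add, pow_one]
  rw [h1, ← mul_sum, mul_comm]
  refine mul_le_mul_of_nonneg_right ?_ (by positivity)
  refine (sum_le_sum fun k _ => ?_).trans (sum_geometric_two_le m)
  refine pow_le_pow_left₀ (by positivity) ?_ k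
  calc (1 / 2 : ℝ) ^ t ≤ (1 / 2) ^ 1 := pow_le_pow_of_le_one (by norm_num) (by norm_num) ht
    _ = 1 / 2 := pow_one _

theorem rel_count {n m d e t : ℕ}
    (h : (m + n.choose e + t) * (e + d).choose d ≤ (n - e).choose d) (ht : 1 ≤ t) :
    (Nat.card {l : Fin m → H n d // HasRel e (fun i => (l i : B n))} : ℝ) ≤
      2 * (1 / 2) ^ t * Nat.card (Fin m → H n d) := by
  classical
  have : Fintype (H n e) := Fintype.ofFinite _
  have : Fintype (H n d) := Fintype.ofFinite _
  set N : ℝ := (Nat.card (Fin m → H n d) : ℝ) with hN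
  have hN0 : 0 ≤ N := Nat.cast_nonneg _
  set x : ℝ := (1 / 2) ^ (m + n.choose e + t) with hx
  have hker : ∀ μ : Fin m → H n e,
      ((univ.filter fun l : Fin m → H n d => Phi d (fun i => (μ i : B n)) l = 0).card : ℝ) ≤
        N * x ^ rk μ := by
    intro μ
    have h1 := card_ker (d := d) (fun i => (μ i : B n))
    have h2 : Nat.card (LinearMap.ker (Phi d (fun i => (μ i : B n)))) =
        (univ.filter fun l : Fin m → H n d => Phi d (fun i => (μ i : B n)) l = 0).card := by
      rw [← Fintype.card_subtype, ← Nat.card_eq_fintype_card]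
      exact Nat.card_congr (Equiv.subtypeEquivRight fun l => LinearMap.mem_ker)
    rw [h2] at h1
    set r := Module.finrank (ZMod 2) (LinearMap.range (Phi d (fun i => (μ i : B n)))) with hr
    have h3 : rk μ * (m + n.choose e + t) ≤ r := by
      have h4 := rank_bound (d := d) (fun i => (μ i : B n)) (fun i => (μ i).2)
      have h5 : 0 < (e + d).choose d := Nat.choose_pos (Nat.le_add_left _ _)
      refine le_of_mul_le_mul_left (a := (e + d).choose d) ?_ h5
      calc (e + d).choose d * (rk μ * (m + n.choose e + t))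
          = rk μ * ((m + n.choose e + t) * (e + d).choose d) := by ring
        _ ≤ rk μ * (n - e).choose d := Nat.mul_le_mul_left _ h
        _ ≤ (e + d).choose d * r := h4
    have h6 : ((univ.filter fun l : Fin m → H n d =>
        Phi d (fun i => (μ i : B n)) l = 0).card : ℝ) * 2 ^ r = N := by
      rw [hN, ← h1]
      push_cast
      ring
    have h7 : ((univ.filter fun l : Fin m → H n d =>
        Phi d (fun i => (μ i : B n)) l = 0).card : ℝ) = N * (1 / 2) ^ r := by
      rw [← h6, mul_assoc, ← mul_pow]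
      norm_num
    rw [h7, hx, ← pow_mul]
    refine mul_le_mul_of_nonneg_left ?_ hN0
    refine pow_le_pow_of_le_one (by norm_num) (by norm_num) ?_
    rw [mul_comm]
    exact h3
  set A : Finset (Fin m → H n e) := univ.filter fun μ => rk μ ∈ Icc 1 m with hA
  have hne : ∀ μ : Fin m → H n e, μ ≠ 0 → rk μ ∈ Icc 1 m := by
    intro μ hμ
    rw [mem_Icc]
    constructor
    · by_contra h0
      have h1 : rk μ = 0 := by omega
      apply hμ
      unfold rk at h1
      rw [Submodule.finrank_eq_zero, Submodule.span_eq_bot] at h1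
      funext i
      exact Subtype.ext (h1 _ ⟨i, rfl⟩)
    · have := finrank_range_le_card (R := ZMod 2) (fun i => (μ i : B n))
      rwa [Fintype.card_fin] at this
  have hsub : (univ.filter fun l : Fin m → H n d => HasRel e (fun i => (l i : B n))) ⊆
      A.biUnion fun μ =>
        univ.filter fun l : Fin m → H n d => Phi d (fun i => (μ i : B n)) l = 0 := by
    intro l hl
    obtain ⟨μ, h1, h2, h3⟩ := (mem_filter.mp hl).2
    rw [mem_biUnion]
    let μ' : Fin m → H n e := fun i => ⟨μ i, h1 i⟩
    have hμ' : μ' ≠ 0 := by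
      intro h0
      apply h2
      funext i
      exact congrArg Subtype.val (congrFun h0 i)
    refine ⟨μ', mem_filter.mpr ⟨mem_univ _, hne μ' hμ'⟩, mem_filter.mpr ⟨mem_univ _, ?_⟩⟩
    rw [Phi_apply]
    exact h3
  have hcard : (Nat.card {l : Fin m → H n d // HasRel e (fun i => (l i : B n))} : ℝ) ≤
      ∑ μ ∈ A, N * x ^ rk μ := by
    rw [Nat.card_eq_fintype_card, Fintype.card_subtype]
    calc ((univ.filter fun l : Fin m → H n d => HasRel e (fun i => (l i : B n))).card : ℝ)
        ≤ ((A.biUnion fun μ => univ.filter fun l : Fin m → H n d =>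
            Phi d (fun i => (μ i : B n)) l = 0).card : ℝ) := by
          exact_mod_cast card_le_card hsub
      _ ≤ ((∑ μ ∈ A, (univ.filter fun l : Fin m → H n d =>
            Phi d (fun i => (μ i : B n)) l = 0).card : ℕ) : ℝ) := by
          exact_mod_cast card_biUnion_le
      _ = ∑ μ ∈ A, ((univ.filter fun l : Fin m → H n d =>
            Phi d (fun i => (μ i : B n)) l = 0).card : ℝ) := by push_cast; rfl
      _ ≤ ∑ μ ∈ A, N * x ^ rk μ := sum_le_sum fun μ _ => hker μ
  refine hcard.trans ?_
  rw [← sum_fiberwise_of_maps_to (g := fun μ => rk μ) (t := Icc 1 m)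
    (fun μ hμ => (mem_filter.mp hμ).2)]
  calc ∑ k ∈ Icc 1 m, ∑ μ ∈ A.filter (fun μ => rk μ = k), N * x ^ rk μ
      ≤ ∑ k ∈ Icc 1 m, N * ((1 / 2 : ℝ) ^ t) ^ k := by
        refine sum_le_sum fun k _ => ?_
        have h1 : ∑ μ ∈ A.filter (fun μ => rk μ = k), N * x ^ rk μ =
            ((A.filter (fun μ => rk μ = k)).card : ℝ) * (N * x ^ k) := by
          rw [← nsmul_eq_mul, ← sum_const]
          refine sum_congr rfl fun μ hμ => ?_
          rw [(mem_filter.mp hμ).2]
        have h2 : ((A.filter (fun μ => rk μ = k)).card : ℝ) ≤ 2 ^ (k * (m + n.choose e)) := by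
          have h3 : (A.filter (fun μ => rk μ = k)).card ≤
              (univ.filter fun μ : Fin m → H n e => rk μ = k).card := by
            apply card_le_card
            intro μ hμ
            exact mem_filter.mpr ⟨mem_univ _, (mem_filter.mp hμ).2⟩
          have h4 := card_mu n m e k
          rw [Nat.card_eq_fintype_card, Fintype.card_subtype] at h4
          exact_mod_cast h3.trans h4
        rw [h1]
        have hxk : 0 ≤ N * x ^ k := by positivity
        refine (mul_le_mul_of_nonneg_right h2 hxk).trans (le_of_eq ?_)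
        rw [hx, ← pow_mul, ← pow_mul, mul_left_comm]
        congr 1
        rw [show (m + n.choose e + t) * k = k * (m + n.choose e) + t * k by ring, pow_add,
          ← mul_assoc, ← mul_pow]
        norm_num
    _ = N * ∑ k ∈ Icc 1 m, ((1 / 2 : ℝ) ^ t) ^ k := by rw [mul_sum]
    _ ≤ N * (2 * (1 / 2) ^ t) := mul_le_mul_of_nonneg_left (sum_pow_le m t ht) hN0
    _ = 2 * (1 / 2) ^ t * N := by ring

end Pool.Agent.Q248.SR
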